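import Pool.Agent.Work.MP_947296_co.All
import Pool.Agent.Work.MP_947296_co.Finite

set_option autoImplicit false

/-! MP_947296_co, Q1 (affirmative answer), as a theorem about the finite games themselves.

The positions `(D, B)`, the free edges (`Finite.Free`) and the two recursions
`Finite.MakerForces`, `Finite.BreakerForces` are defined in
`Pool/Agent/Work/MP_947296_co/Finite.lean`. -/

namespace Pool.Agent.Results.MP_947296_co.FiniteGame

open Pool.Agent.Work.MP_947296_co Pool.Agent.Work.MP_947296_co.Finite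

/-- Maker, moving first, has a winning strategy in the game on the edges of `K_n` in which the
players alternately claim one free edge until all `n.choose 2` edges are claimed, Maker fixes an
orientation of each of her edges when she claims it, and she wins if at the end her directed
graph `D` has the property `goal D`. -/
def MakerWins (n : ℕ) (goal : Finset (Fin n × Fin n) → Prop) : Prop :=
  MakerForces goal (n.choose 2) true ∅ ∅

/-- Breaker, moving second, has a winning strategy in the same game: he can force that at the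
end Maker's directed graph does not have the property `goal`. -/
def BreakerWins (n : ℕ) (goal : Finset (Fin n × Fin n) → Prop) : Prop :=
  BreakerForces goal (n.choose 2) true ∅ ∅

/-- Maker's edges contain a copy of `K_k` (the orientations do not matter): the goal of the
`k`-clique game. -/
def HasClique {n : ℕ} (k : ℕ) (D : Finset (Fin n × Fin n)) : Prop :=
  ∃ f : Fin k → Fin n, Function.Injective f ∧
    ∀ i j : Fin k, i ≠ j → (f i, f j) ∈ D ∨ (f j, f i) ∈ D

/-- `T` is a tournament on `Fin k`. -/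
def IsTournament {k : ℕ} (T : Fin k → Fin k → Prop) : Prop :=
  (∀ i, ¬ T i i) ∧ ∀ i j, i ≠ j → (T i j ↔ ¬ T j i)

/-- Maker's directed graph contains a copy of `T`: the goal of the `T`-building game. -/
def HasCopy {n k : ℕ} (T : Fin k → Fin k → Prop) (D : Finset (Fin n × Fin n)) : Prop :=
  ∃ f : Fin k → Fin n, Function.Injective f ∧ ∀ i j : Fin k, T i j → (f i, f j) ∈ D

/-- `k_cl(n)`: the largest `k` for which Maker has a winning strategy in the `k`-clique game
on `K_n`. -/
noncomputable def kcl (n : ℕ) : ℕ := sSup {k | MakerWins n (HasClique k)}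

theorem le_of_makerWins {n k : ℕ} (h : MakerWins n (HasClique k)) : k ≤ n := by
  obtain ⟨D, f, hf, -⟩ := exists_goal _ _ _ _ card_fr_empty h
  simpa using Fintype.card_le_of_injective f hf

theorem isGreatest_kcl {n k : ℕ} (h : MakerWins n (HasClique k)) :
    IsGreatest {k | MakerWins n (HasClique k)} (kcl n) := by
  have hb : BddAbove {k | MakerWins n (HasClique k)} := ⟨n, fun _ hk => le_of_makerWins hk⟩
  exact ⟨Nat.sSup_mem ⟨k, h⟩ hb, fun _ hk => le_csSup hb hk⟩

theorem makerWins_clique {n k : ℕ} (hn : 0 < n)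
    (h : ∃ σ : (t : ℕ) → (Fin t → Fin n × Fin n) → Fin n × Fin n,
      ∀ b : ℕ → Fin n × Fin n,
      ∃ f : Fin k → Fin n, Function.Injective f ∧ ∀ i j : Fin k, i ≠ j →
        ∃ t : ℕ,
          (σ t (fun s : Fin t => b s.val) = (f i, f j) ∨
            σ t (fun s : Fin t => b s.val) = (f j, f i)) ∧
          ∀ s : ℕ, s < t → (b s ≠ (f i, f j) ∧ b s ≠ (f j, f i))) :
    MakerWins n (HasClique k) := by
  by_contra hcon
  obtain ⟨σ, hσ⟩ := h
  obtain ⟨b, D, hD, hb⟩ := breaker_sim hn ((det _ _ _ _).1 hcon) σ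
  obtain ⟨f, hf, h1⟩ := hσ b
  apply hD
  refine ⟨f, hf, fun i j hij => ?_⟩
  have hne : f i ≠ f j := fun h => hij (hf h)
  obtain ⟨t, h2, h3⟩ := h1 i j hij
  rcases h2 with h2 | h2
  · exact hb t _ h2 hne (fun s hs => h3 s hs)
  · exact (hb t _ h2 hne.symm (fun s hs => ⟨(h3 s hs).2, (h3 s hs).1⟩)).symm

theorem breakerWins_copy {n k : ℕ} (hn : 0 < n) {T : Fin k → Fin k → Prop}
    (h : ¬ ∃ σ : (t : ℕ) → (Fin t → Fin n × Fin n) → Fin n × Fin n,
        ∀ b : ℕ → Fin n × Fin n,
        ∃ f : Fin k → Fin n, Function.Injective f ∧ ∀ i j : Fin k, T i j →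
          ∃ t : ℕ, σ t (fun s : Fin t => b s.val) = (f i, f j) ∧
            ∀ s : ℕ, s < t →
              (b s ≠ (f i, f j) ∧ b s ≠ (f j, f i) ∧
                σ s (fun r : Fin s => b r.val) ≠ (f i, f j) ∧
                σ s (fun r : Fin s => b r.val) ≠ (f j, f i))) :
    BreakerWins n (HasCopy T) := by
  by_contra hcon
  have hM : MakerForces (n := n) (HasCopy T) (n.choose 2) true ∅ ∅ := by
    by_contra h'
    exact hcon ((det _ _ _ _).1 h')
  obtain ⟨σ, hσ⟩ := maker_sim hn hM
  refine h ⟨σ, fun b => ?_⟩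
  obtain ⟨D, ⟨f, hf, h1⟩, h2⟩ := hσ b
  refine ⟨f, hf, fun i j hij => ?_⟩
  obtain ⟨-, t, h3, h4⟩ := h2 _ (h1 i j hij)
  exact ⟨t, h3, h4⟩

/-- For all large `u`, with `n = 2 ^ (20 * 2 ^ u)` and `k = 40 * 2 ^ u - 2 * u - 9`: Maker has a
winning strategy in the `k`-clique game on `K_n` (so `k ≤ k_cl(n)`), but for some tournament `T`
on `k` vertices Breaker has a winning strategy in the `T`-building game on `K_n`. -/
theorem result : ∃ u₀ : ℕ, ∀ u : ℕ, u₀ ≤ u →
    MakerWins (2 ^ (20 * 2 ^ u)) (HasClique (40 * 2 ^ u - 2 * u - 9)) ∧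
    IsGreatest {k | MakerWins (2 ^ (20 * 2 ^ u)) (HasClique k)} (kcl (2 ^ (20 * 2 ^ u))) ∧
    40 * 2 ^ u - 2 * u - 9 ≤ kcl (2 ^ (20 * 2 ^ u)) ∧
    ∃ T : Fin (40 * 2 ^ u - 2 * u - 9) → Fin (40 * 2 ^ u - 2 * u - 9) → Prop,
      IsTournament T ∧ BreakerWins (2 ^ (20 * 2 ^ u)) (HasCopy T) := by
  have t6 := famPot tokStep tokInit tokClosed tupSum tupMany
  have a3 := capPot (rootPot bvStep)
  have b2 := chainB (levelB t6)
  have c8 := levelC t6 (itemSum (nearTransversal transversal)) stamps (cappedAct omEq)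
    (itemClosed omEq)
  have hcore := core a3 b2 c8 numBasic numA numB1 numB2 (numB4 numB3) numC1 numC2 numC3 numC4
  have hB := breaker hcore tourExists (frameCount (frame arcsFacts blockFew)) (esStage bvStep)
    unroll enterQT (copyQT arcsFacts) numBasic numF
  have hM := maker (makerClique (makerAbs makerRound)) numBasic numM1 numM2
  obtain ⟨u₀, hu₀⟩ := Filter.eventually_atTop.1 (hB.and hM)
  refine ⟨u₀, fun u hu => ?_⟩
  obtain ⟨⟨T, hT1, hT2, hT3⟩, hM'⟩ := hu₀ u hu
  have hn : 0 < 2 ^ (20 * 2 ^ u) := by positivity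
  have h1 : MakerWins (2 ^ (20 * 2 ^ u)) (HasClique (40 * 2 ^ u - 2 * u - 9)) :=
    makerWins_clique hn hM'
  have h2 := isGreatest_kcl h1
  exact ⟨h1, h2, h2.2 h1, T, ⟨hT1, hT2⟩, breakerWins_copy hn hT3⟩

end Pool.Agent.Results.MP_947296_co.FiniteGame
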